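import Pool.Agent.Lib_helper74.CHM.Main

/-!
# MP_3be8ee_co: circulant Hadamard matrices and Barker sequences of almost no order

For every `A` a circulant Hadamard matrix of order `4 u ^ 2` exists for at most
`C x / (log x) ^ A` of the numbers `u ≤ x`; so at most `C √x / (log x) ^ A` even numbers `v ≤ x`
are lengths of Barker sequences.

Proof idea.  Let `b` be the first row of a circulant Hadamard matrix of order `v = 4 u ^ 2`,
`ζ` a primitive `v`-th root of unity, `Y = ∑_{b i = 1} ζ ^ i`; then `Y * conj Y = u ^ 2`.  Let `P`
be the largest prime factor of `u`, `σ` the automorphism `ζ ↦ ζ ^ (1 + v / P)` of `K = ℚ(ζ)`, of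
order `P`.  `K` is the direct sum of the eigenspaces of `σ` for the eigenvalues `ζ_P ^ k`, and for
an algebraic integer `W` with `W * conj W = m ^ 2` at most `m ^ 2` of the components are not `0`
(the components are algebraic integers, and the mean of the absolute squares of the conjugates of
such a number is at least `1`).  `σ` fixes the prime ideals over `P` and over the primes `q ∣ u`
with `q ^ (P - 1) ≢ 1` modulo `P ^ 2` (field descent).  The other primes `q ∣ u` are bad; let `s` be
the bad part of `u`.  Then `W_0 = Y * conj (σ Y) / (u / s) ^ 2` is an algebraic integer of absolute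
value `s ^ 2`.  For a bad prime `q` let `τ` be the automorphism `ζ ↦ ζ ^ c`, `c ≡ q` modulo the
`q`-free part of `v`, `c ≡ 1` modulo the `q`-part; it fixes the prime ideals over `q`, and
`W_1 = τ W_0 * conj W_0 / q ^ e` is an algebraic integer whose absolute value is free of `q`.  Going
on with all bad primes we get an algebraic integer of absolute value `1`, which has only one
component.  Now go back: if `W_1` has only one component, then the set `S` of the indices of the
components of `W_0` satisfies `q S = S + c` in `ℤ / P`, and `S` has at most `s ^ 4` elements; if the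
order of `q` modulo `P` is larger, then `S` has only one element, because all orbits of
`x ↦ (x + c) / q` except a fixed point have this length.  So if the orders of the bad primes modulo
`P` are larger than `s ^ 2 ^ (r + 1)`, `r` the number of bad primes, then `W_0` and then also `Y` has
only one component, and Parseval's identity on `ℤ / (v / P)` gives a contradiction for `P ≥ 5`.

It remains to count the `u ≤ x` for which the order modulo the largest prime factor `P` of a bad
prime is small.  Products of `j` bad primes `≤ N`, `N ^ j ≤ P ^ 2`, are different solutions of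
`t ^ (P - 1) ≡ 1` modulo `P ^ 2`, so there are at most `3 (log P) N ^ (3 / 4)` bad primes `≤ N`, and
bad primes larger than a power of `log x` can be neglected; primes `P` for which a smaller prime has
order at most `exp (√(log x))` are rare; and for all but `C x / (log x) ^ A` of the `u ≤ x` the
smooth part of `u` is small and has few prime factors.
-/

set_option autoImplicit false

namespace Pool.Agent.Results.MP_3be8ee_co.AlmostNoOrder

open Pool.Agent.CHM Finset Classical

theorem result (A : ℝ) : ∃ C : ℝ, ∀ x : ℝ, 2 ≤ x →
    (((Icc 1 ⌊x⌋₊).filter fun u => CHMOrder (4 * u ^ 2)).card : ℝ) ≤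
        C * x / Real.log x ^ A ∧
      (((Icc 1 ⌊x⌋₊).filter fun v => Even v ∧ ∃ b : ℕ → ℤ, IsBarker v b).card : ℝ) ≤
        C * √x / Real.log x ^ A := by
  obtain ⟨C1, hC1, h1⟩ := real_form _ chm_count A
  obtain ⟨C2, hC2, h2⟩ := real_form_sqrt (fun v => Even v ∧ ∃ b : ℕ → ℤ, IsBarker v b)
    (fun B => by
      obtain ⟨C, hC, h⟩ := barker_count B
      refine ⟨C, hC, fun N hN => ?_⟩
      convert h N hN) A
  have h2' : ∀ x : ℝ, 2 ≤ x →
      (((Icc 1 ⌊x⌋₊).filter fun v => Even v ∧ ∃ b : ℕ → ℤ, IsBarker v b).card : ℝ) ≤
        C2 * √x / Real.log x ^ A := by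
    intro x hx
    convert h2 x hx
  refine ⟨max C1 C2, fun x hx => ⟨(h1 x hx).trans ?_, (h2' x hx).trans ?_⟩⟩
  · have : 0 < Real.log x := Real.log_pos (by linarith)
    gcongr
    exact le_max_left _ _
  · have : 0 < Real.log x := Real.log_pos (by linarith)
    gcongr
    exact le_max_right _ _

end Pool.Agent.Results.MP_3be8ee_co.AlmostNoOrder
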