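import Pool.Agent.Lib_helper74.CHM.Main

/-!
# MP_3be8ee_co: no circulant Hadamard matrix of order `4 (m P ^ a) ^ 2` for large primes `P`

The proof is described in `Results/MP_3be8ee_co/AlmostNoOrder.lean`.
-/

set_option autoImplicit false

namespace Pool.Agent.Results.MP_3be8ee_co.LargePrimeFactor

open Pool.Agent.CHM

theorem result :
    (∀ m P a : ℕ, 1 ≤ m → P.Prime → 5 ≤ P → m ^ m ^ 2 ^ (m.primeFactors.card + 1) < P →
      1 ≤ a → ¬ CHMOrder (4 * (m * P ^ a) ^ 2) ∧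
        ¬ ∃ b : ℕ → ℤ, IsBarker (4 * (m * P ^ a) ^ 2) b) ∧
    (∀ u P : ℕ, 1 ≤ u → P.Prime → P ≠ 2 → P ∣ u →
      (∀ r : ℕ, r.Prime → r ∣ u → ¬ P ∣ r - 1) →
      4 * u ^ 2 < P * Nat.totient (4 * u ^ 2) → CHMOrder (4 * u ^ 2) →
        ∃ q : ℕ, q ∣ u ∧ Bad P q ∧
          orderOf (q : ZMod P) ≤ badPart P u ^ 2 ^ (badNum P u + 1)) := by
  refine ⟨fun m P a hm hP h5 hl ha => ⟨not_chm_family m P a hm hP h5 hl ha, ?_⟩,
    fun u P hu hP hP2 hPu hr hlt h => bad_of_chm hu h hP hP2 hPu hr hlt⟩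
  rintro ⟨b, hb⟩
  have hpos : 1 ≤ m * P ^ a := Nat.mul_pos (by omega) (pow_pos hP.pos _)
  refine not_chm_family m P a hm hP h5 hl ha (barker_chm hb ⟨2 * (m * P ^ a) ^ 2, by ring⟩ ?_)
  nlinarith

end Pool.Agent.Results.MP_3be8ee_co.LargePrimeFactor
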